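import Pool.Agent.Y819.ZF.RelS
import Pool.Agent.Y819.ZF.StmP

/-!
# Project LT: the list edge colouring conjecture for complete tripartite graphs and for complements of
blow-ups of powers of cycles
-/

set_option autoImplicit false
set_option linter.all false

namespace Pool.Agent.N343.LT

open MvPolynomial Finset Pool.Agent.Helper929 Pool.Agent.H604R2.LEC Pool.Agent.Y819.ZF
  Pool.Agent.Y819.ZF.RelM

/-! ### Determinants -/

/-- LT1: Laplace expansion, averaged over all permutations -/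
def S_LAP : Prop := ∀ (R : Type) [CommRing R] (α β : Type) [Fintype α] [DecidableEq α] [Fintype β]
  [DecidableEq β] (M : Matrix (α ⊕ β) (α ⊕ β) R),
  ∑ τ : Equiv.Perm (α ⊕ β), (((Equiv.Perm.sign τ : ℤˣ) : ℤ) : R) *
    (M.submatrix (fun a => τ (Sum.inl a)) Sum.inl).det *
    (M.submatrix (fun b => τ (Sum.inr b)) Sum.inr).det =
  (((Fintype.card α).factorial * (Fintype.card β).factorial : ℕ) : R) * M.det

/-- the values of the polynomials `g t ^ a` and `f t ^ b`, where `f = ∏ (t - x c)` -/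
noncomputable def RM {R : Type} [CommRing R] {m l : ℕ} (x : Fin m → R) (g : Polynomial R)
    (v : Fin m ⊕ Fin l → R) : Matrix (Fin m ⊕ Fin l) (Fin m ⊕ Fin l) R :=
  Matrix.of fun i j => Sum.elim (fun a : Fin m => g.eval (v i) * v i ^ (a : ℕ))
    (fun b : Fin l => (∏ c, (v i - x c)) * v i ^ (b : ℕ)) j

/-- LT2: the Sylvester determinant -/
def S_RES : Prop := ∀ (R : Type) [CommRing R] [IsDomain R] (m l : ℕ) (x u : Fin m → R)
  (y : Fin l → R) (g : Polynomial R), g.natDegree ≤ l → Function.Injective (Sum.elim x y) →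
  (RM x g (Sum.elim u y)).det = (∏ a, g.eval (x a)) * (Matrix.vandermonde u).det *
    (Matrix.vandermonde y).det * ∏ a, ∏ b, (y b - u a)

/-- the Vandermonde product of the variables `v i` -/
noncomputable def vd (R : Type) [CommRing R] {V : Type} {n : ℕ} (v : Fin n → V) : MvPolynomial V R :=
  ∏ i, ∏ j, if i < j then (X (v i) - X (v j)) else 1

/-- the span of the images of `P` under the permutations which fix all elements outside of `Z` -/
noncomputable def WZ (R : Type) [CommRing R] {V : Type} (Z : Set V) (P : MvPolynomial V R) :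
    Submodule R (MvPolynomial V R) :=
  Submodule.span R {Q | ∃ σ : Equiv.Perm V, (∀ v, v ∉ Z → σ v = v) ∧ Q = rename σ P}

/-- LT3: exchanging `m` variables -/
def S_KEY : Prop := ∀ (p : ℕ) [Fact p.Prime] (V : Type) (m l : ℕ) (x u : Fin m → V) (y : Fin l → V)
  (W : Finset V) (M : V → ℕ), m + l < p → Function.Injective (Sum.elim x (Sum.elim u y)) →
  (∀ w ∈ W, w ∉ Set.range u ∧ w ∉ Set.range y) → ∑ w ∈ W, M w ≤ l →
  vd (ZMod p) u * vd (ZMod p) y * (∏ a, ∏ b, (X (u a) - X (y b))) *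
      (∏ a, ∏ w ∈ W, (X (x a) - X w) ^ M w) ∈
    WZ (ZMod p) (Set.range u ∪ Set.range y)
      (vd (ZMod p) u * vd (ZMod p) y * (∏ a, ∏ b, (X (x a) - X (y b))) *
        (∏ a, ∏ w ∈ W, (X (u a) - X w) ^ M w))

/-! ### Blow-ups of powers of cycles -/

/-- non-adjacency at the cyclic distance `≤ k` among the numbers below `v` -/
def eC (v k a b : ℕ) : ℕ := if k < (a - b) + (b - a) ∧ (a - b) + (b - a) + k < v then 1 else 0

/-- multiplicities between the moving chains and the fixed chains -/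
def chM (k N y j : ℕ) : ℕ :=
  if y < k then (if j = y then N - 1 else N) else (N - y / k) + (if y % k < j then 1 else 0)

/-- the multigraph of the cells `≥ m x`; the cell `i` belongs to the cluster `i / m` -/
def Pst (m k N x i j : ℕ) : ℕ :=
  if m * x ≤ i ∧ m * x ≤ j then
    (if i / m = j / m then 1 else eC (k * (N + 2)) k (i / m) (j / m)) else 0

/-- the complete graph on the cells of `Z` and the chain multigraph (`i < j`) -/
def Qst (m k N x i j : ℕ) : ℕ :=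
  if m * (x + k) ≤ i ∧ j < m * (k * (N + 1)) then 1
  else if i / m = j / m ∧ m * x ≤ i ∧ (j < m * (x + k) ∨ m * (k * (N + 1)) ≤ i) then 1
  else if m * x ≤ i ∧ i < m * (x + k) ∧ m * (k * (N + 1)) ≤ j then
    chM k N (i / m) (j / m - k * (N + 1))
  else 0

/-- the claim for the state `x` -/
def Claim (p m k N x : ℕ) : Prop :=
  GP (ZMod p) (fun i j : Fin (m * (k * (N + 2))) => Qst m k N x i j) ∈
    WZ (ZMod p) {i : Fin (m * (k * (N + 2))) | m * (x + k) ≤ i.val ∧ i.val < m * (k * (N + 1))}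
      (GP (ZMod p) (fun i j : Fin (m * (k * (N + 2))) => Pst m k N x i j))

/-- LT4: one step -/
def S_STEP : Prop := ∀ (p : ℕ) [Fact p.Prime] (m k N x : ℕ), 0 < m → 0 < k → x < k * N →
  m * (k * N) < p → Claim p m k N (x + 1) → Claim p m k N x

/-! ### Pairs of clusters -/

/-- LT5: the Cauchy determinant -/
def S_CAU : Prop := ∀ m : ℕ, ∃ ε : ℤ, (ε = 1 ∨ ε = -1) ∧ ∀ (R : Type) [CommRing R] (x y : Fin m → R),
  (∏ i, ∏ j, if i < j then (x i - x j) * (y i - y j) else 1) =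
    (ε : R) * ∑ σ : Equiv.Perm (Fin m), (((Equiv.Perm.sign σ : ℤˣ) : ℤ) : R) *
      ∏ i, ∏ j ∈ univ.erase (σ i), (x i - y j)

/-- `m` cells for every `c : C`; `A c d` edges between cells of `c` and `d`, and one edge more between
`(c, s)` and `(φ c, t)` for `s ≠ t` -/
def MI {C : Type} [DecidableEq C] (A : C → C → ℕ) (m : ℕ) (φ : C → C) : C × Fin m → C × Fin m → ℕ :=
  fun x y => A x.1 y.1 + if y.1 = φ x.1 ∧ x.2 ≠ y.2 then 1 else 0

/-- the functional -/
def S_FUN : Prop := ∀ (p : ℕ) [Fact p.Prime], p ≠ 2 → ∀ n : ℕ, Even n →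
  ∃ Λ : MvPolynomial (Fin n) (ZMod p) →ₗ[ZMod p] ZMod p, ∀ μ : Fin n → Fin n → ℕ,
    RegM (p - 2) μ →
      (Λ (GP (ZMod p) μ) = 0 ↔ cc (ZMod p) (p - 2) (mτ (edM μ)) (mη (edM μ)) = 0) ∧
      ∀ σ : Equiv.Perm (Fin n), Λ (rename σ (GP (ZMod p) μ)) =
        (((Equiv.Perm.sign σ : ℤˣ) : ℤ) : ZMod p) * Λ (GP (ZMod p) μ)

/-- LT6: converting one pair of clusters -/
def S_CP1 : Prop := ∀ (p : ℕ) [Fact p.Prime], p ≠ 2 → ∀ (C : Type) [Fintype C] [DecidableEq C]
  (A : C → C → ℕ) (m : ℕ) (φ : C → C) (a b : C), m < p → (∀ c d, A c d = A d c) → (∀ c, A c c = 0) →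
  (∀ c, φ (φ c) = c) → a ≠ b → φ a = a → φ b = b → RegM (p - 2) (MI A m φ) →
  RegM (p - 2) (MI A m fun c => Equiv.swap a b (φ c)) →
  (OK p (C × Fin m) (MI A m φ) ↔ OK p (C × Fin m) (MI A m fun c => Equiv.swap a b (φ c)))

/-- LT7: converting pairs of clusters -/
def S_CPI : Prop := ∀ (p : ℕ) [Fact p.Prime], p ≠ 2 → ∀ (C : Type) [Fintype C] [DecidableEq C]
  (A : C → C → ℕ) (m : ℕ) (φ : C → C), m < p → (∀ c d, A c d = A d c) → (∀ c, A c c = 0) →
  (∀ c, φ (φ c) = c) → RegM (p - 2) (MI A m id) →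
  RegM (p - 2) (MI A m φ) ∧ (OK p (C × Fin m) (MI A m id) ↔ OK p (C × Fin m) (MI A m φ))

/-! ### One more colour -/

/-- LT8: splitting off one colour class -/
def S_EXP : Prop := ∀ (R : Type) [CommRing R] (d n : ℕ) (E : Type) [Fintype E] [DecidableEq E]
  (τ η : E → Fin n),
  cc R (d + 1) τ η = ∑ S : Finset E,
    cc R 1 (fun e : {e // e ∈ S} => τ e) (fun e : {e // e ∈ S} => η e) *
    cc R d (fun e : {e // e ∉ S} => τ e) (fun e : {e // e ∉ S} => η e)

/-- LT9: perfect matchings -/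
def S_ONE : Prop := ∀ (p : ℕ) [Fact p.Prime] (n : ℕ) (E : Type) [Fintype E] (τ η : E → Fin n),
  (∀ e, τ e ≠ η e) → (cc (ZMod p) 1 τ η ≠ 0 ↔ Reg 1 τ η)

/-- LT10: any two perfect matchings of the complete tripartite graph are equivalent -/
def S_MAT : Prop := ∀ (n : ℕ) (π π₀ : Fin 3 × Fin n → Fin 3 × Fin n), (∀ v, π (π v) = v) →
  (∀ v, π₀ (π₀ v) = v) → (∀ v, (π v).1 ≠ v.1) → (∀ v, (π₀ v).1 ≠ v.1) →
  ∃ σ : Equiv.Perm (Fin 3 × Fin n), (∀ v, (σ v).1 = v.1) ∧ ∀ v, σ (π₀ v) = π (σ v)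

/-- the complete tripartite graph -/
def K3 (n : ℕ) : SimpleGraph (Fin 3 × Fin n) where
  Adj x y := x.1 ≠ y.1
  symm := ⟨fun _ _ h => h.symm⟩
  loopless := ⟨fun _ h => h rfl⟩

/-- the complete tripartite graph minus the perfect matching given by the involution `π` -/
def K3m (n : ℕ) (π : Fin 3 × Fin n → Fin 3 × Fin n) : SimpleGraph (Fin 3 × Fin n) where
  Adj x y := x.1 ≠ y.1 ∧ y ≠ π x ∧ x ≠ π y
  symm := ⟨fun _ _ h => ⟨h.1.symm, h.2.2, h.2.1⟩⟩
  loopless := ⟨fun _ h => h.1 rfl⟩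

/-- LT11: from the complete tripartite graph minus a perfect matching to the complete tripartite graph -/
def S_TRI : Prop := ∀ (p : ℕ) [Fact p.Prime] (n : ℕ), 0 < n → p = 2 * n + 1 →
  ∀ π₀ : Fin 3 × Fin n → Fin 3 × Fin n, (∀ v, π₀ (π₀ v) = v) → (∀ v, (π₀ v).1 ≠ v.1) →
  OK p (Fin 3 × Fin n) (ind (K3m n π₀)) →
  cc (ZMod p) (p - 1) (gτ ((K3 n).comap finProdFinEquiv.symm))
    (gη ((K3 n).comap finProdFinEquiv.symm)) ≠ 0

/-- the pairing of the six clusters -/
def φ6 : ZMod 6 → ZMod 6 := fun c => if c = 0 then 1 else if c = 1 then 0 else if c = 2 then 3 else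
  if c = 3 then 2 else if c = 4 then 5 else 4

/-- LT12: the six clusters -/
def S_HEX : Prop := ∀ m : ℕ, ∃ (e : ZMod 6 × Fin m ≃ Fin 3 × Fin (2 * m))
  (π : Fin 3 × Fin (2 * m) → Fin 3 × Fin (2 * m)), (∀ v, π (π v) = v) ∧ (∀ v, (π v).1 ≠ v.1) ∧
  ∀ x y, MI (ind (powC 6 1)ᶜ) m φ6 x y = ind (K3m (2 * m) π) (e x) (e y)

/-- LT13: the bipartite multigraph at the end -/
def S_BAS : Prop := ∀ (p : ℕ) [Fact p.Prime], p ≠ 2 → ∀ (m k N : ℕ), m * (k * N) = p - 1 →
  RegM (p - 2) (MI (fun c d : Fin k × Bool => if c.2 = d.2 then 0 else if c.1 = d.1 then N - 1 else N)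
    m id) ∧
  OK p ((Fin k × Bool) × Fin m)
    (MI (fun c d : Fin k × Bool => if c.2 = d.2 then 0 else if c.1 = d.1 then N - 1 else N) m id)

end Pool.Agent.N343.LT
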