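import Pool.Agent.N343.LT.Defs
import Pool.Agent.N343.LT.Stm

set_option autoImplicit false
set_option linter.all false

namespace Pool.Agent.N343.LT

open Finset Pool.Agent.Helper929 Pool.Agent.H604R2.LEC Pool.Agent.Y819.ZF Pool.Agent.N343.LT.Defs

/-- LT14: the complete multipartite graph minus a perfect matching as a blow-up -/
def S_RNG : Prop := ∀ r m : ℕ, 2 ≤ r →
  (∀ c, pairing r (pairing r c) = c) ∧ (∀ c, Near 1 c (pairing r c)) ∧
  ∃ e : ZMod r × (Bool × Fin m) ≃ ZMod (2 * r) × Fin m,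
    ∀ x y, (MultipartiteMinusMatching r m).Adj x y ↔ (BlowUp (2 * r) 1 m (pairing r)).Adj (e x) (e y)

/-- LT15: the blow-up as a multigraph -/
def S_BLW : Prop := ∀ (v k m : ℕ) (φ : ZMod v → ZMod v), 0 < v → (∀ c, φ (φ c) = c) →
  (∀ c, Near k c (φ c)) →
  MI (ind (powC v k)ᶜ) m φ = ind (BlowUp v k m φ)

/-- LT16: list colourings of covers, from the coefficient for the base -/
def S_HLD : Prop := ∀ (p d : ℕ) [Fact p.Prime] (n : ℕ) (V : Type) (G : SimpleGraph V) (e : V ≃ Fin n),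
  (∀ v, (G.neighborSet v).ncard = d) →
  cc (ZMod p) d (gτ (G.comap e.symm)) (gη (G.comap e.symm)) ≠ 0 →
  (∃ u v, G.Adj u v) → Holds p d G

/-- LT17: complete tripartite graphs with different parts -/
def S_AAN : Prop := ∀ (n a : ℕ), 1 ≤ a → a ≤ n → SubgraphsToo (K3 n) (2 * n) →
  ListEdgeConjectureFor (Tripartite a n n)

end Pool.Agent.N343.LT
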