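import Pool.Agent.N343.LT.Fin1
import Pool.Agent.N343.LT.Stm2

set_option autoImplicit false
set_option linter.all false

namespace Pool.Agent.N343.LT.Asm

open Finset Pool.Agent.Helper929 Pool.Agent.H604R2.LEC Pool.Agent.Y819.ZF
  Pool.Agent.Y819.ZF.RelM Pool.Agent.Y819.ZF.Rel Pool.Agent.Y819.ZF.Cls Pool.Agent.N343.LT
  Pool.Agent.N343.LT.Defs

theorem ind_symm {V : Type} (G : SimpleGraph V) (a b : V) : ind G a b = ind G b a := by
  unfold Pool.Agent.Y819.ZF.ind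
  by_cases h : G.Adj a b
  · rw [if_pos h, if_pos h.symm]
  · rw [if_neg h, if_neg fun h2 => h h2.symm]

/-- from OK to list colourings -/
theorem holds_of_ok (hGME : S_GME) (hHLD : S_HLD) (p : ℕ) [hp : Fact p.Prime] (hp2 : p ≠ 2) {V : Type}
    [Nonempty V] (G : SimpleGraph V) (hreg : RegM (p - 2) (ind G)) (hok : OK p V (ind G)) :
    Holds p (p - 2) G := by
  classical
  have hfin := hreg.fin
  obtain ⟨n, ⟨e⟩⟩ := Finite.exists_equiv_fin V
  have hdeg := ind_reg G (p - 2) hreg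
  refine hHLD p (p - 2) n V G e hdeg ((hGME p (p - 2) V G n e).2 (hok n e)) ?_
  have hp3 : 3 ≤ p := by
    have := hp.out.two_le
    omega
  obtain ⟨u⟩ := ‹Nonempty V›
  have h1 : (G.neighborSet u).ncard ≠ 0 := by
    rw [hdeg u]
    omega
  obtain ⟨v, hv⟩ := Set.nonempty_of_ncard_ne_zero h1
  exact ⟨u, v, hv⟩

theorem blow_ok (hSTEP : S_STEP) (hBAS : S_BAS) (hCPI : S_CPI) (hPWA : S_PWA) (hPWR : S_PWR)
    (hUNI : S_UNI) (hKOK : S_KOK) (hNUM : S_NUM) (hBLW : S_BLW)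
    (p : ℕ) [hp : Fact p.Prime] (hp2 : p ≠ 2) (m k N : ℕ) (h : m * (k * N) = p - 1) (v : ℕ)
    (hvv : v = k * (N + 2)) (φ : ZMod v → ZMod v) (hφ : ∀ c, φ (φ c) = c) (hn : ∀ c, Near k c (φ c)) :
    Nonempty (ZMod v × Fin m) ∧ RegM (p - 2) (ind (BlowUp v k m φ)) ∧
      OK p (ZMod v × Fin m) (ind (BlowUp v k m φ)) := by
  classical
  subst hvv
  have hp3 : 3 ≤ p := by
    have := hp.out.two_le
    omega
  have hm : 0 < m := by
    rcases Nat.eq_zero_or_pos m with h1 | h1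
    · rw [h1, zero_mul] at h
      omega
    · exact h1
  have hkN : 0 < k * N := by
    rcases Nat.eq_zero_or_pos (k * N) with h1 | h1
    · rw [h1, mul_zero] at h
      omega
    · exact h1
  have hk : 0 < k := by
    rcases Nat.eq_zero_or_pos k with h1 | h1
    · rw [h1, zero_mul] at hkN
      exact absurd hkN (lt_irrefl _)
    · exact h1
  have hv : 0 < k * (N + 2) := Nat.mul_pos hk (by omega)
  have : NeZero (k * (N + 2)) := ⟨hv.ne'⟩
  have hmp : m < p := by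
    have h1 : m ≤ m * (k * N) := Nat.le_mul_of_pos_right m hkN
    omega
  obtain ⟨h1, h2⟩ := Fin1.ok_blow hSTEP hBAS hPWA hPWR hUNI hKOK hNUM p hp2 m k N h
  have hf : Fintype (ZMod (k * (N + 2))) := inferInstance
  have hA : ∀ a b, ind (powC (k * (N + 2)) k)ᶜ a b = ind (powC (k * (N + 2)) k)ᶜ b a := by
    intro a b
    exact ind_symm _ a b
  have hA0 : ∀ a, ind (powC (k * (N + 2)) k)ᶜ a a = 0 := by
    intro a
    unfold Pool.Agent.Y819.ZF.ind
    simp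
  obtain ⟨h3, h4⟩ := hCPI p hp2 (ZMod (k * (N + 2))) (ind (powC (k * (N + 2)) k)ᶜ) m φ hmp hA hA0 hφ h1
  have h5 := h4.1 h2
  rw [hBLW _ k m φ hv hφ hn] at h3 h5
  exact ⟨⟨(0, ⟨0, hm⟩)⟩, h3, h5⟩

theorem ring_ok (hSTEP : S_STEP) (hBAS : S_BAS) (hCPI : S_CPI) (hPWA : S_PWA) (hPWR : S_PWR)
    (hUNI : S_UNI) (hKOK : S_KOK) (hNUM : S_NUM) (hBLW : S_BLW) (hRNG : S_RNG)
    (hGME : S_GME) (hHLD : S_HLD)
    (p : ℕ) [hp : Fact p.Prime] (hp2 : p ≠ 2) (r m : ℕ) (hr : 2 ≤ r) (h : (r - 1) * (2 * m) = p - 1) :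
    Holds p (p - 2) (MultipartiteMinusMatching r m) := by
  classical
  obtain ⟨h1, h2, e, he⟩ := hRNG r m hr
  obtain ⟨h3, h4, h5⟩ := blow_ok hSTEP hBAS hCPI hPWA hPWR hUNI hKOK hNUM hBLW p hp2 m 1 (2 * r - 2) (by
    rw [← h, one_mul]
    have h6 : 2 * r - 2 = 2 * (r - 1) := by omega
    rw [h6]
    ring) (2 * r) (by omega) (pairing r) h1 h2
  have h6 : (fun v w => ind (BlowUp (2 * r) 1 m (pairing r)) (e.symm.symm v) (e.symm.symm w)) =
      ind (MultipartiteMinusMatching r m) := by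
    funext v w
    unfold Pool.Agent.Y819.ZF.ind
    rw [Equiv.symm_symm]
    by_cases h7 : (MultipartiteMinusMatching r m).Adj v w
    · rw [if_pos h7, if_pos ((he v w).1 h7)]
    · rw [if_neg h7, if_neg fun h8 => h7 ((he v w).2 h8)]
  have h7 := regM_iso e.symm _ h4
  have h8 := ok_iso e.symm _ h5
  rw [h6] at h7 h8
  have hne : Nonempty (ZMod r × (Bool × Fin m)) := ⟨e.symm (Classical.choice h3)⟩
  exact holds_of_ok hGME hHLD p hp2 _ h7 h8

theorem tri (hSTEP : S_STEP) (hBAS : S_BAS) (hCPI : S_CPI) (hPWA : S_PWA) (hPWR : S_PWR)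
    (hUNI : S_UNI) (hKOK : S_KOK) (hNUM : S_NUM) (hHLD : S_HLD) (hHEX : S_HEX) (hTRI : S_TRI)
    (n : ℕ) (hn : Even n) (hn0 : 0 < n) (hp : (2 * n + 1).Prime) :
    Holds (2 * n + 1) (2 * n) (K3 n) := by
  classical
  obtain ⟨m, hm⟩ := hn
  have hm2 : n = 2 * m := by omega
  clear hm
  subst hm2
  set p := 2 * (2 * m) + 1 with hpdef
  have : Fact p.Prime := ⟨hp⟩
  have hp2 : p ≠ 2 := by omega
  obtain ⟨h1, h2⟩ := Fin1.ok_blow hSTEP hBAS hPWA hPWR hUNI hKOK hNUM p hp2 m 1 4 (by omega)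
  have hA : ∀ a b, ind (powC 6 1)ᶜ a b = ind (powC 6 1)ᶜ b a := by
    intro a b
    exact ind_symm _ a b
  have hA0 : ∀ a, ind (powC 6 1)ᶜ a a = 0 := by
    intro a
    unfold Pool.Agent.Y819.ZF.ind
    simp
  have h1' : RegM (p - 2) (MI (ind (powC 6 1)ᶜ) m id) := h1
  have h2' : OK p (ZMod 6 × Fin m) (MI (ind (powC 6 1)ᶜ) m id) := h2
  obtain ⟨h3, h4⟩ := hCPI p hp2 (ZMod 6) (ind (powC 6 1)ᶜ) m φ6 (by omega) hA hA0 (by decide) h1'
  have h5 := h4.1 h2'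
  obtain ⟨e, π, hπ1, hπ2, he⟩ := hHEX m
  have h6 := ok_iso e _ h5
  have h7 : (fun v w => MI (ind (powC 6 1)ᶜ) m φ6 (e.symm v) (e.symm w)) = ind (K3m (2 * m) π) := by
    funext v w
    rw [he, Equiv.apply_symm_apply, Equiv.apply_symm_apply]
  rw [h7] at h6
  have h8 := hTRI p (2 * m) hn0 hpdef π hπ1 hπ2 h6
  have h9 : p - 1 = 2 * (2 * m) := by omega
  rw [h9] at h8
  refine hHLD p (2 * (2 * m)) _ _ (K3 (2 * m)) finProdFinEquiv ?_ h8 ?_
  · intro v
    have h10 : (K3 (2 * m)).neighborSet v = {w | w.1 ≠ v.1} := by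
      ext w
      rw [SimpleGraph.mem_neighborSet]
      exact ⟨fun h => Ne.symm h, fun h => Ne.symm h⟩
    rw [h10, Set.ncard_eq_toFinset_card']
    have h11 : ({w | w.1 ≠ v.1} : Set (Fin 3 × Fin (2 * m))).toFinset =
        (univ.filter fun c : Fin 3 => c ≠ v.1) ×ˢ (univ : Finset (Fin (2 * m))) := by
      ext w
      simp
    rw [h11, Finset.card_product, Finset.card_univ, Fintype.card_fin]
    congr 1
    have h12 : (univ.filter fun c : Fin 3 => c ≠ v.1) = univ.erase v.1 := by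
      ext c
      simp
    rw [h12, Finset.card_erase_of_mem (mem_univ _), Finset.card_univ, Fintype.card_fin]
  · exact ⟨(0, ⟨0, hn0⟩), (1, ⟨0, hn0⟩), by
      show (0 : Fin 3) ≠ 1
      decide⟩

end Pool.Agent.N343.LT.Asm
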