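import Pool.Agent.N343.LT.Stm
import Pool.Agent.Y819.ZF.All

set_option autoImplicit false
set_option linter.all false

namespace Pool.Agent.N343.LT

open MvPolynomial Finset Pool.Agent.Helper929 Pool.Agent.H604R2.LEC Pool.Agent.Y819.ZF
  Pool.Agent.Y819.ZF.RelM Pool.Agent.Y819.ZF.Rel Pool.Agent.Y819.ZF.Cls

/-! ### Graph polynomials -/

theorem GP_congr {R : Type} [CommRing R] {n : ℕ} {μ ν : Fin n → Fin n → ℕ}
    (h : ∀ i j, i < j → μ i j = ν i j) : GP R μ = GP R ν := by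
  unfold GP
  refine Finset.prod_congr rfl fun i _ => Finset.prod_congr rfl fun j _ => ?_
  split_ifs with hij
  · rw [h i j hij]
  · rfl

theorem GP_add {R : Type} [CommRing R] {n : ℕ} (μ ν : Fin n → Fin n → ℕ) :
    GP R (fun i j => μ i j + ν i j) = GP R μ * GP R ν := by
  unfold GP
  rw [← Finset.prod_mul_distrib]
  refine Finset.prod_congr rfl fun i _ => ?_
  rw [← Finset.prod_mul_distrib]
  refine Finset.prod_congr rfl fun j _ => ?_
  split_ifs
  · rw [pow_add]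
  · rw [one_mul]

/-- additivity in the exponents, pointwise form -/
theorem GP_mul {R : Type} [CommRing R] {n : ℕ} {μ ν ρ : Fin n → Fin n → ℕ}
    (h : ∀ i j, i < j → ρ i j = μ i j + ν i j) : GP R ρ = GP R μ * GP R ν := by
  rw [← GP_add]
  exact GP_congr h

theorem GP_pairs {R : Type} [CommRing R] {n : ℕ} (μ : Fin n → Fin n → ℕ) :
    GP R μ = ∏ q : Fin n × Fin n, if q.1 < q.2 then (X q.1 - X q.2) ^ μ q.1 q.2 else 1 := by
  unfold GP
  exact (Fintype.prod_prod_type' (fun (i j : Fin n) =>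
    (if i < j then ((X i : MvPolynomial (Fin n) R) - X j) ^ μ i j else 1))).symm

theorem GP_filter {R : Type} [CommRing R] {n : ℕ} (μ : Fin n → Fin n → ℕ) :
    GP R μ = ∏ q ∈ univ.filter (fun q : Fin n × Fin n => q.1 < q.2 ∧ μ q.1 q.2 ≠ 0),
      (X q.1 - X q.2) ^ μ q.1 q.2 := by
  rw [GP_pairs, Finset.prod_filter]
  refine Finset.prod_congr rfl fun q _ => ?_
  by_cases h1 : q.1 < q.2
  · by_cases h2 : μ q.1 q.2 = 0
    · rw [if_pos h1, if_neg (fun h => h.2 h2), h2, pow_zero]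
    · rw [if_pos h1, if_pos ⟨h1, h2⟩]
  · rw [if_neg h1, if_neg (fun h => h1 h.1)]

theorem rename_GP {R : Type} [CommRing R] {n : ℕ} (μ : Fin n → Fin n → ℕ) (σ : Equiv.Perm (Fin n)) :
    rename σ (GP R μ) = ∏ q ∈ univ.filter (fun q : Fin n × Fin n => q.1 < q.2 ∧ μ q.1 q.2 ≠ 0),
      (X (σ q.1) - X (σ q.2)) ^ μ q.1 q.2 := by
  rw [GP_filter, map_prod]
  refine Finset.prod_congr rfl fun q _ => ?_
  rw [map_pow, map_sub, rename_X, rename_X]

/-- invariance of a graph polynomial -/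
theorem GP_inv {R : Type} [CommRing R] {n : ℕ} (μ : Fin n → Fin n → ℕ) (σ : Equiv.Perm (Fin n))
    (h1 : ∀ i j, i < j → μ i j ≠ 0 → σ i < σ j ∧ μ (σ i) (σ j) = μ i j)
    (h2 : ∀ i j, i < j → μ i j ≠ 0 → σ.symm i < σ.symm j ∧ μ (σ.symm i) (σ.symm j) = μ i j) :
    rename σ (GP R μ) = GP R μ := by
  rw [rename_GP, GP_filter]
  refine Finset.prod_bij' (fun q _ => (σ q.1, σ q.2)) (fun q _ => (σ.symm q.1, σ.symm q.2)) ?_ ?_ ?_ ?_ ?_
  · intro q hq
    simp only [mem_filter, mem_univ, true_and] at hq ⊢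
    obtain ⟨h3, h4⟩ := h1 _ _ hq.1 hq.2
    exact ⟨h3, by rw [h4]; exact hq.2⟩
  · intro q hq
    simp only [mem_filter, mem_univ, true_and] at hq ⊢
    obtain ⟨h3, h4⟩ := h2 _ _ hq.1 hq.2
    exact ⟨h3, by rw [h4]; exact hq.2⟩
  · intro q _
    simp
  · intro q _
    simp
  · intro q hq
    simp only [mem_filter, mem_univ, true_and] at hq
    rw [(h1 _ _ hq.1 hq.2).2]

/-! ### Spans -/

theorem WZ_self {R : Type} [CommRing R] {V : Type} (Z : Set V) (P : MvPolynomial V R) : P ∈ WZ R Z P :=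
  Submodule.subset_span ⟨1, fun _ _ => rfl, by
    rw [Equiv.Perm.coe_one, rename_id]
    rfl⟩

theorem WZ_mono {R : Type} [CommRing R] {V : Type} {Z Z' : Set V} (h : Z ⊆ Z') (P : MvPolynomial V R) :
    WZ R Z P ≤ WZ R Z' P := by
  unfold WZ
  refine Submodule.span_mono ?_
  rintro Q ⟨σ, h1, h2⟩
  exact ⟨σ, fun v hv => h1 v fun h3 => hv (h h3), h2⟩

theorem WZ_rename {R : Type} [CommRing R] {V : Type} {Z : Set V} {P Q : MvPolynomial V R}
    (σ : Equiv.Perm V) (hσ : ∀ v, v ∉ Z → σ v = v) (h : Q ∈ WZ R Z P) : rename σ Q ∈ WZ R Z P := by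
  unfold WZ at h
  refine Submodule.span_induction (p := fun Q _ => rename σ Q ∈ WZ R Z P) ?_ ?_ ?_ ?_ h
  · rintro Q ⟨τ, h1, rfl⟩
    refine Submodule.subset_span ⟨σ * τ, ?_, ?_⟩
    · intro v hv
      rw [Equiv.Perm.mul_apply, h1 v hv, hσ v hv]
    · rw [rename_rename, Equiv.Perm.coe_mul]
  · rw [map_zero]
    exact Submodule.zero_mem _
  · intro a b _ _ h1 h2
    rw [map_add]
    exact Submodule.add_mem _ h1 h2
  · intro c a _ h1
    rw [map_smul]
    exact Submodule.smul_mem _ _ h1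

theorem WZ_trans {R : Type} [CommRing R] {V : Type} {Z : Set V} {P Q F : MvPolynomial V R}
    (h : Q ∈ WZ R Z P) (hF : F ∈ WZ R Z Q) : F ∈ WZ R Z P := by
  have h1 : WZ R Z Q ≤ WZ R Z P := by
    refine Submodule.span_le.2 ?_
    rintro _ ⟨σ, hσ, rfl⟩
    exact WZ_rename σ hσ h
  exact h1 hF

theorem WZ_mul {R : Type} [CommRing R] {V : Type} {Z : Set V} {P F : MvPolynomial V R}
    (A : MvPolynomial V R) (hA : ∀ σ : Equiv.Perm V, (∀ v, v ∉ Z → σ v = v) → rename σ A = A)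
    (hF : F ∈ WZ R Z P) : A * F ∈ WZ R Z (A * P) := by
  unfold WZ at hF
  refine Submodule.span_induction (p := fun Q _ => A * Q ∈ WZ R Z (A * P)) ?_ ?_ ?_ ?_ hF
  · rintro Q ⟨τ, h1, rfl⟩
    refine Submodule.subset_span ⟨τ, h1, ?_⟩
    rw [map_mul, hA τ h1]
  · rw [mul_zero]
    exact Submodule.zero_mem _
  · intro a b _ _ h1 h2
    rw [mul_add]
    exact Submodule.add_mem _ h1 h2
  · intro c a _ h1
    rw [mul_smul_comm]
    exact Submodule.smul_mem _ _ h1

/-! ### The functional -/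

theorem fun_main : S_FUN := by
  classical
  intro p hp hp2 n hn
  have hodd : Odd p := hp.out.odd_of_ne_two hp2
  have hp3 : 3 ≤ p := by
    have := hp.out.two_le
    omega
  have hd : Odd (p - 2) := by
    obtain ⟨k, hk⟩ := hodd
    exact ⟨k - 1, by omega⟩
  obtain ⟨Λ, hΛ⟩ := All.sTRF p n hn (skew (cJ p n))
  refine ⟨Λ, fun μ hμ => ?_⟩
  have hreg : Reg (p - 2) (mτ (edM μ)) (mη (edM μ)) := by
    apply reg_ME
    intro c
    exact deg_nm μ hμ (Equiv.refl _) c
  have hcard : Fintype.card (ME (edM μ)) = (p - 2) * (n / 2) := by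
    have h1 := reg_card _ _ hreg
    obtain ⟨k, hk⟩ := hn
    have h2 : n / 2 = k := by omega
    rw [h2]
    have h3 : 2 * Fintype.card (ME (edM μ)) = 2 * ((p - 2) * k) := by
      rw [h1, hk]
      ring
    omega
  have h1 : Λ (GP (ZMod p) μ) = cc (ZMod p) (p - 2) (mτ (edM μ)) (mη (edM μ)) *
      pf n (skew (cJ p n)) := by
    rw [RelS.GP_eq, ← hΛ _ _ _ hreg, Pool.Agent.Y51.ZG.main p n _ _ _ _ (skew_antisymm _)
      (skew_self _) hcard]
  refine ⟨?_, fun σ => ?_⟩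
  · rw [h1]
    constructor
    · intro h
      rcases mul_eq_zero.1 h with h | h
      · exact h
      · exact absurd h (cJ_pf_ne p hn)
    · intro h
      rw [h, zero_mul]
  · have h2 : rename σ (GP (ZMod p) μ) =
        PP (ZMod p) (fun e => σ (mτ (edM μ) e)) (fun e => σ (mη (edM μ) e)) := by
      rw [RelS.GP_eq]
      unfold PP
      rw [map_prod]
      refine Finset.prod_congr rfl fun e _ => ?_
      rw [map_sub, rename_X, rename_X]
    rw [h2, ← hΛ _ _ _ (reg_perm _ _ hreg σ), Pool.Agent.Y51.ZG.main p n _ _ _ _ (skew_antisymm _)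
      (skew_self _) hcard, Pool.Agent.Y438.ZF.alt (ZMod p) n (p - 2) hd _ _ _ σ, h1]
    ring

end Pool.Agent.N343.LT
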