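import Pool.Agent.N343.LT.Base

set_option autoImplicit false
set_option linter.all false

namespace Pool.Agent.N343.LT

open MvPolynomial Finset Pool.Agent.Helper929 Pool.Agent.H604R2.LEC Pool.Agent.Y819.ZF
  Pool.Agent.Y819.ZF.RelM Pool.Agent.Y819.ZF.Rel Pool.Agent.Y819.ZF.Cls

/-- the exponents in terms of the clusters -/
def PstC (k N x a b : ℕ) : ℕ :=
  if x ≤ a ∧ x ≤ b then (if a = b then 1 else eC (k * (N + 2)) k a b) else 0

/-- the exponents in terms of the clusters -/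
def QstC (k N x a b : ℕ) : ℕ :=
  if x + k ≤ a ∧ b < k * (N + 1) then 1
  else if a = b ∧ x ≤ a ∧ (b < x + k ∨ k * (N + 1) ≤ a) then 1
  else if x ≤ a ∧ a < x + k ∧ k * (N + 1) ≤ b then chM k N a (b - k * (N + 1))
  else 0

theorem Pst_cl {m : ℕ} (hm : 0 < m) (k N x i j : ℕ) : Pst m k N x i j = PstC k N x (i / m) (j / m) := by
  have e1 : ∀ c q : ℕ, m * c ≤ q ↔ c ≤ q / m := fun c q => by
    rw [Nat.le_div_iff_mul_le hm, mul_comm]
  unfold Pst PstC
  simp only [e1]

theorem Qst_cl {m : ℕ} (hm : 0 < m) (k N x i j : ℕ) : Qst m k N x i j = QstC k N x (i / m) (j / m) := by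
  have e1 : ∀ c q : ℕ, m * c ≤ q ↔ c ≤ q / m := fun c q => by
    rw [Nat.le_div_iff_mul_le hm, mul_comm]
  have e2 : ∀ c q : ℕ, q < m * c ↔ q / m < c := fun c q => by
    rw [Nat.div_lt_iff_lt_mul hm, mul_comm]
  unfold Qst QstC
  simp only [e1, e2]

theorem last_cl {k N a b : ℕ} (hk : 0 < k) (hN : 0 < N) (hab : a ≤ b) (hb : b < k * (N + 2)) :
    QstC k N (k * N) a b = PstC k N (k * N) a b := by
  unfold QstC PstC eC chM
  have hv : k * (N + 2) = k * N + 2 * k := by ring
  have hv1 : k * (N + 1) = k * N + k := by ring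
  have hKk : k ≤ k * N := Nat.le_mul_of_pos_right k hN
  rw [hv] at hb ⊢
  rw [hv1]
  by_cases h1 : k * N ≤ a
  · have h2 : k * N ≤ b := le_trans h1 hab
    rw [if_neg (by omega : ¬ (k * N + k ≤ a ∧ b < k * N + k)),
      if_pos (show k * N ≤ a ∧ k * N ≤ b from ⟨h1, h2⟩)]
    by_cases h3 : a = b
    · rw [if_pos h3, if_pos ⟨h3, h1, by omega⟩]
    · rw [if_neg h3, if_neg (fun hh => h3 hh.1)]
      by_cases h4 : a < k * N + k ∧ k * N + k ≤ b
      · rw [if_pos (show k * N ≤ a ∧ a < k * N + k ∧ k * N + k ≤ b from ⟨h1, h4⟩), if_neg (by omega)]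
        obtain ⟨r, hr⟩ : ∃ r, a = k * N + r := ⟨a - k * N, by omega⟩
        have hrk : r < k := by omega
        have h5 : a / k = N := by
          rw [hr, Nat.mul_add_div hk, Nat.div_eq_of_lt hrk, add_zero]
        have h6 : a % k = r := by
          rw [hr, Nat.mul_add_mod, Nat.mod_eq_of_lt hrk]
        rw [h5, h6]
        split_ifs <;> omega
      · rw [if_neg (fun hh => h4 hh.2)]
        rw [if_neg]
        omega
  · rw [if_neg (by omega), if_neg (by omega), if_neg (by omega), if_neg (by omega)]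

end Pool.Agent.N343.LT
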