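import Mathlib

/-!
# The list edge colouring conjecture: the graphs of the theorem
-/

set_option autoImplicit false
set_option linter.all false

namespace Pool.Agent.N343.LT.Defs

/-- The list edge colouring conjecture for the single graph `G`, in the form of the frozen statement
`S07911`: for every `k`, the edges of `G` can be properly coloured with `k` colours if and only if `G` has
a proper edge colouring from every list assignment with lists of at least `k` colours. -/
def ListEdgeConjectureFor {V : Type} (G : SimpleGraph V) : Prop :=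
  ∀ k : ℕ, G.lineGraph.Colorable k ↔
    ∀ L : G.edgeSet → Finset ℕ, (∀ e, k ≤ (L e).card) →
      ∃ f : G.edgeSet → ℕ, (∀ e, f e ∈ L e) ∧
        ∀ e e', G.lineGraph.Adj e e' → f e ≠ f e'

/-- The list edge colouring conjecture for all graphs isomorphic to a subgraph of `H` whose edges
cannot be properly coloured with `d - 1` colours. -/
def SubgraphsToo {V : Type} (H : SimpleGraph V) (d : ℕ) : Prop :=
  ∀ (W : Type) (G : SimpleGraph W) (φ : W → V), Function.Injective φ →
    (∀ u v, G.Adj u v → H.Adj (φ u) (φ v)) → ¬ G.lineGraph.Colorable (d - 1) →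
    ListEdgeConjectureFor G

/-- The derived graph (cover) of the graph `G` for a voltage assignment `β` with values in the
group `P`: `(u, x)` is joined to `(v, x * β u v)` for all neighbours `u`, `v`. -/
def Cover {V P : Type} [Group P] (G : SimpleGraph V) (β : V → V → P)
    (hβ : ∀ u v, β v u = (β u v)⁻¹) : SimpleGraph (V × P) where
  Adj x y := G.Adj x.1 y.1 ∧ y.2 = x.2 * β x.1 y.1
  symm := by
    constructor
    rintro x y ⟨h1, h2⟩
    refine ⟨h1.symm, ?_⟩
    rw [h2, hβ x.1 y.1]
    simp
  loopless := ⟨fun x h => G.loopless.irrefl _ h.1⟩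

/-- `G`, all its covers by finite `p`-groups, and all subgraphs of these covers which need at least `d`
colours satisfy the list edge colouring conjecture. -/
def Holds (p d : ℕ) {V : Type} (G : SimpleGraph V) : Prop :=
  ListEdgeConjectureFor G ∧ SubgraphsToo G d ∧
    ∀ (P : Type) [Group P] [Finite P], IsPGroup p P → ∀ (β : V → V → P)
      (hβ : ∀ u v, β v u = (β u v)⁻¹), ListEdgeConjectureFor (Cover G β hβ) ∧
        SubgraphsToo (Cover G β hβ) d

/-- The complete tripartite graph with three parts of size `n`. -/
def EqualTripartite (n : ℕ) : SimpleGraph (Fin 3 × Fin n) where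
  Adj x y := x.1 ≠ y.1
  symm := ⟨fun _ _ h => h.symm⟩
  loopless := ⟨fun _ h => h rfl⟩

/-- The complete tripartite graph with parts of sizes `a`, `b`, `c`. -/
def Tripartite (a b c : ℕ) : SimpleGraph (Σ i : Fin 3, Fin (![a, b, c] i)) :=
  SimpleGraph.completeMultipartiteGraph fun i => Fin (![a, b, c] i)

/-- The complete `r`-partite graph with parts of size `2 m` minus a perfect matching which has `m` edges
between the parts `i` and `i + 1` for every `i` modulo `r`: the part `i` is the set of the `(i, (b, s))`
with a bit `b` and `s < m`, and the edge between `(i, (true, s))` and `(i + 1, (false, s))` is removed. -/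
def MultipartiteMinusMatching (r m : ℕ) : SimpleGraph (ZMod r × (Bool × Fin m)) where
  Adj x y := x.1 ≠ y.1 ∧
    ¬ (y.1 = x.1 + 1 ∧ x.2.1 = true ∧ y.2.1 = false ∧ x.2.2 = y.2.2) ∧
    ¬ (x.1 = y.1 + 1 ∧ y.2.1 = true ∧ x.2.1 = false ∧ y.2.2 = x.2.2)
  symm := ⟨fun x y h => ⟨h.1.symm, h.2.2, h.2.1⟩⟩
  loopless := ⟨fun x h => h.1 rfl⟩

/-- `a` and `b` have cyclic distance at most `k`. -/
def Near (k : ℕ) {v : ℕ} (a b : ZMod v) : Prop := ∃ j : ℕ, j ≤ k ∧ (b = a + j ∨ a = b + j)

/-- The complement of the blow-up of the `k`-th power of the cycle with `v` vertices by independent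
sets of size `m`, modified by the involution `φ`: there are `v` clusters of `m` vertices; two vertices
of different clusters `a`, `b` are joined if `a` and `b` have cyclic distance more than `k`; the cluster
`a` is a clique if `φ a = a`; if `φ a = b ≠ a` then the clusters `a` and `b` are independent sets and
are joined by the complete bipartite graph minus a perfect matching. (For `φ = id` this is the
complement of the lexicographic product of the power of the cycle with an edgeless graph.) -/
def BlowUp (v k m : ℕ) (φ : ZMod v → ZMod v) : SimpleGraph (ZMod v × Fin m) where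
  Adj x y := (y.1 = φ x.1 ∧ x.1 = φ y.1 ∧ x.2 ≠ y.2) ∨ ¬ Near k x.1 y.1
  symm := by
    constructor
    rintro x y (h | h)
    · exact Or.inl ⟨h.2.1, h.1, h.2.2.symm⟩
    · refine Or.inr fun h2 => h ?_
      obtain ⟨j, hj, h3⟩ := h2
      exact ⟨j, hj, h3.symm⟩
  loopless := ⟨by
    rintro x (h | h)
    · exact h.2.2 rfl
    · exact h ⟨0, Nat.zero_le _, Or.inl (by simp)⟩⟩

/-- the pairing `2 i + 1`, `2 i + 2` of the residues modulo `2 r` -/
def pairing (r : ℕ) : ZMod (2 * r) → ZMod (2 * r) := fun c => if c.val % 2 = 1 then c + 1 else c - 1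

end Pool.Agent.N343.LT.Defs
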