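import Pool.Agent.N343.LT.Cl

set_option autoImplicit false
set_option linter.all false

namespace Pool.Agent.N343.LT.Fin1

open MvPolynomial Finset Pool.Agent.Helper929 Pool.Agent.H604R2.LEC Pool.Agent.Y819.ZF
  Pool.Agent.Y819.ZF.RelM Pool.Agent.Y819.ZF.Rel Pool.Agent.Y819.ZF.Cls Pool.Agent.N343.LT

/-- the last state -/
theorem claim_last (p m k N : ℕ) [Fact p.Prime] (hm : 0 < m) (hk : 0 < k) (hN : 0 < N) :
    Claim p m k N (k * N) := by
  unfold Claim
  have h : GP (ZMod p) (fun i j : Fin (m * (k * (N + 2))) => Qst m k N (k * N) i j) =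
      GP (ZMod p) (fun i j : Fin (m * (k * (N + 2))) => Pst m k N (k * N) i j) := by
    refine GP_congr ?_
    intro i j hij
    rw [Qst_cl hm, Pst_cl hm]
    refine last_cl hk hN (Nat.div_le_div_right hij.le) ?_
    rw [Nat.div_lt_iff_lt_mul hm]
    exact lt_of_lt_of_eq j.2 (mul_comm _ _)
  rw [h]
  exact WZ_self _ _

theorem claim_zero (hSTEP : S_STEP) (p m k N : ℕ) [Fact p.Prime] (hm : 0 < m) (hk : 0 < k)
    (hN : 0 < N) (hlt : m * (k * N) < p) : Claim p m k N 0 := by
  have h : ∀ t : ℕ, t ≤ k * N → Claim p m k N (k * N - t) := by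
    intro t
    induction t with
    | zero =>
      intro _
      exact claim_last p m k N hm hk hN
    | succ t ih =>
      intro ht
      have h1 := ih (by omega)
      refine hSTEP p m k N (k * N - (t + 1)) hm hk (by omega) hlt ?_
      have h2 : k * N - (t + 1) + 1 = k * N - t := by omega
      rw [h2]
      exact h1
  have h1 := h (k * N) le_rfl
  rwa [Nat.sub_self] at h1

/-- the residues and the numbers -/
def zf (n : ℕ) [NeZero n] : ZMod n ≃ Fin n where
  toFun v := ⟨v.val, ZMod.val_lt v⟩
  invFun a := ((a.val : ℕ) : ZMod n)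
  left_inv v := ZMod.natCast_zmod_val v
  right_inv a := Fin.ext (ZMod.val_cast_of_lt a.2)

/-- the numbering of the cells -/
def eN (m v : ℕ) [NeZero v] : ZMod v × Fin m ≃ Fin (m * v) :=
  ((Equiv.prodCongr (zf v) (Equiv.refl (Fin m))).trans finProdFinEquiv).trans (finCongr (mul_comm v m))

theorem eN_val (m v : ℕ) [NeZero v] (x : ZMod v × Fin m) : (eN m v x).val = x.2.val + m * x.1.val := rfl

theorem eN_div {m v : ℕ} (hm : 0 < m) [NeZero v] (x : ZMod v × Fin m) : (eN m v x).val / m = x.1.val := by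
  rw [eN_val, Nat.add_mul_div_left _ _ hm, Nat.div_eq_of_lt x.2.2, zero_add]

/-- the exponents of the blow-up -/
theorem mi_pst (hPWA : S_PWA) {m k N : ℕ} (hm : 0 < m) (hk : 0 < k) (hN : 0 < N) [NeZero (k * (N + 2))]
    (x y : ZMod (k * (N + 2)) × Fin m) (hxy : (eN m (k * (N + 2)) x).val < (eN m (k * (N + 2)) y).val) :
    MI (ind (powC (k * (N + 2)) k)ᶜ) m id x y =
      Pst m k N 0 (eN m (k * (N + 2)) x).val (eN m (k * (N + 2)) y).val := by
  rw [Pst_cl hm, eN_div hm, eN_div hm]
  have hv : k * (N + 2) = k * N + 2 * k := by ring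
  have hKk : k ≤ k * N := Nat.le_mul_of_pos_right k hN
  have hle : x.1.val ≤ y.1.val := by
    have h := Nat.div_le_div_right (c := m) hxy.le
    rwa [eN_div hm, eN_div hm] at h
  have h1 := hPWA (k * (N + 2)) k x.1.val y.1.val (by omega) hle (ZMod.val_lt _)
  rw [ZMod.natCast_zmod_val, ZMod.natCast_zmod_val] at h1
  unfold MI PstC
  rw [h1, if_pos (show 0 ≤ x.1.val ∧ 0 ≤ y.1.val from ⟨Nat.zero_le _, Nat.zero_le _⟩)]
  by_cases h2 : x.1.val = y.1.val
  · have h3 : y.1 = x.1 := (ZMod.val_injective _ h2).symm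
    have h4 : x.2 ≠ y.2 := by
      intro h5
      rw [eN_val, eN_val, h5, h2] at hxy
      exact lt_irrefl _ hxy
    rw [if_pos (show y.1 = id x.1 ∧ x.2 ≠ y.2 from ⟨h3, h4⟩), if_pos h2, if_neg]
    omega
  · have h3 : y.1 ≠ x.1 := fun h => h2 (by rw [h])
    rw [if_neg (show ¬ (y.1 = id x.1 ∧ x.2 ≠ y.2) from fun h => h3 h.1), if_neg h2, add_zero]
    unfold eC
    refine if_congr ?_ rfl rfl
    omega

/-- the numbering of the vertices of the disjoint union -/
def f0 (m k N : ℕ) : Fin (m * (k * N)) ⊕ ((Fin k × Bool) × Fin m) → ℕ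
  | Sum.inl z => m * k + z.val
  | Sum.inr ((i, false), s) => m * i.val + s.val
  | Sum.inr ((i, true), s) => m * (k * (N + 1) + i.val) + s.val

theorem f0_lt (m k N : ℕ) (x : Fin (m * (k * N)) ⊕ ((Fin k × Bool) × Fin m)) :
    f0 m k N x < m * (k * (N + 2)) := by
  have h1 : m * (k * (N + 2)) = m * (k * N) + m * k + m * k := by ring
  have h2 : ∀ (i : Fin k) (s : Fin m), m * i.val + s.val < m * k := by
    intro i s
    have h3 : m * (i.val + 1) ≤ m * k := Nat.mul_le_mul_left m i.2
    have h4 := s.2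
    rw [mul_add, mul_one] at h3
    omega
  rcases x with z | ⟨⟨i, b⟩, s⟩
  · have := z.2
    show m * k + z.val < _
    omega
  · cases b
    · have := h2 i s
      show m * i.val + s.val < _
      omega
    · have := h2 i s
      show m * (k * (N + 1) + i.val) + s.val < _
      have h5 : m * (k * (N + 1) + i.val) = m * (k * N) + m * k + m * i.val := by ring
      omega

/-- the cluster -/
def c0 (m k N : ℕ) : Fin (m * (k * N)) ⊕ ((Fin k × Bool) × Fin m) → ℕ
  | Sum.inl z => k + z.val / m
  | Sum.inr ((i, false), s) => i.val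
  | Sum.inr ((i, true), s) => k * (N + 1) + i.val

theorem f0_div {m : ℕ} (hm : 0 < m) (k N : ℕ) (x : Fin (m * (k * N)) ⊕ ((Fin k × Bool) × Fin m)) :
    f0 m k N x / m = c0 m k N x := by
  rcases x with z | ⟨⟨i, b⟩, s⟩
  · show (m * k + z.val) / m = k + z.val / m
    rw [Nat.mul_add_div hm]
  · cases b
    · show (m * i.val + s.val) / m = i.val
      rw [Nat.mul_add_div hm, Nat.div_eq_of_lt s.2, add_zero]
    · show (m * (k * (N + 1) + i.val) + s.val) / m = k * (N + 1) + i.val
      rw [Nat.mul_add_div hm, Nat.div_eq_of_lt s.2, add_zero]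

theorem f0_inj {m k N : ℕ} (hm : 0 < m) : Function.Injective (f0 m k N) := by
  intro x y hxy
  have hc : c0 m k N x = c0 m k N y := by rw [← f0_div hm, ← f0_div hm, hxy]
  have hv1 : k * (N + 1) = k * N + k := by ring
  have hz : ∀ z : Fin (m * (k * N)), z.val / m < k * N := by
    intro z
    rw [Nat.div_lt_iff_lt_mul hm]
    exact lt_of_lt_of_eq z.2 (mul_comm _ _)
  rcases x with z | ⟨⟨i, b⟩, s⟩ <;> rcases y with z' | ⟨⟨i', b'⟩, s'⟩
  · have h1 : m * k + z.val = m * k + z'.val := hxy
    exact congrArg Sum.inl (Fin.ext (by omega))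
  · exfalso
    have h2 := hz z
    have h3 := i'.2
    cases b'
    · have h1 : k + z.val / m = i'.val := hc
      generalize z.val / m = q at *
      omega
    · have h1 : k + z.val / m = k * (N + 1) + i'.val := hc
      generalize z.val / m = q at *
      omega
  · exfalso
    have h2 := hz z'
    have h3 := i.2
    cases b
    · have h1 : i.val = k + z'.val / m := hc
      generalize z'.val / m = q at *
      omega
    · have h1 : k * (N + 1) + i.val = k + z'.val / m := hc
      generalize z'.val / m = q at *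
      omega
  · have h3 := i.2
    have h4 := i'.2
    cases b <;> cases b'
    · have h1 : i.val = i'.val := hc
      have h2 : m * i.val + s.val = m * i'.val + s'.val := hxy
      have h5 : i = i' := Fin.ext h1
      subst h5
      have h6 : s = s' := Fin.ext (by omega)
      subst h6
      rfl
    · have h1 : i.val = k * (N + 1) + i'.val := hc
      omega
    · have h1 : k * (N + 1) + i.val = i'.val := hc
      omega
    · have h1 : k * (N + 1) + i.val = k * (N + 1) + i'.val := hc
      have h2 : m * (k * (N + 1) + i.val) + s.val = m * (k * (N + 1) + i'.val) + s'.val := hxy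
      have h5 : i = i' := Fin.ext (by omega)
      subst h5
      have h6 : s = s' := Fin.ext (by omega)
      subst h6
      rfl

/-- the numbering as an equivalence -/
noncomputable def e0 {m k N : ℕ} (hm : 0 < m) :
    Fin (m * (k * N)) ⊕ ((Fin k × Bool) × Fin m) ≃ Fin (m * (k * (N + 2))) :=
  Equiv.ofBijective (fun x => ⟨f0 m k N x, f0_lt m k N x⟩) (by
    rw [Fintype.bijective_iff_injective_and_card]
    refine ⟨fun x y h => f0_inj hm (congrArg Fin.val h), ?_⟩
    simp only [Fintype.card_sum, Fintype.card_prod, Fintype.card_fin, Fintype.card_bool]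
    ring)

theorem e0_val {m k N : ℕ} (hm : 0 < m) (x : Fin (m * (k * N)) ⊕ ((Fin k × Bool) × Fin m)) :
    (e0 (k := k) (N := N) hm x).val = f0 m k N x := rfl

/-- the multigraph of the chains -/
def AB (k N : ℕ) : Fin k × Bool → Fin k × Bool → ℕ :=
  fun c d => if c.2 = d.2 then 0 else if c.1 = d.1 then N - 1 else N

theorem sum_qst {m k N : ℕ} (hm : 0 < m) (hk : 0 < k) (hN : 0 < N)
    (x y : Fin (m * (k * N)) ⊕ ((Fin k × Bool) × Fin m)) (hxy : f0 m k N x < f0 m k N y) :
    sumM (ind (⊤ : SimpleGraph (Fin (m * (k * N))))) (MI (AB k N) m id) x y =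
      Qst m k N 0 (f0 m k N x) (f0 m k N y) := by
  rw [Qst_cl hm, f0_div hm, f0_div hm]
  have hle : c0 m k N x ≤ c0 m k N y := by
    rw [← f0_div hm, ← f0_div hm]
    exact Nat.div_le_div_right hxy.le
  have hv1 : k * (N + 1) = k * N + k := by ring
  have hKk : k ≤ k * N := Nat.le_mul_of_pos_right k hN
  have hz : ∀ z : Fin (m * (k * N)), z.val / m < k * N := by
    intro z
    rw [Nat.div_lt_iff_lt_mul hm]
    exact lt_of_lt_of_eq z.2 (mul_comm _ _)
  unfold QstC
  rcases x with z | ⟨⟨i, b⟩, s⟩ <;> rcases y with z' | ⟨⟨i', b'⟩, s'⟩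
  · have h1 : m * k + z.val < m * k + z'.val := hxy
    have h2 := hz z'
    show ind (⊤ : SimpleGraph (Fin (m * (k * N)))) z z' = _
    have h3 : c0 m k N (Sum.inl z) = k + z.val / m := rfl
    have h4 : c0 m k N (Sum.inl z') = k + z'.val / m := rfl
    rw [h3, h4, if_pos (by
      generalize z.val / m = q at *
      generalize z'.val / m = q' at *
      omega)]
    unfold Pool.Agent.Y819.ZF.ind
    rw [if_pos]
    rw [SimpleGraph.top_adj]
    intro h
    rw [h] at h1
    exact lt_irrefl _ h1
  · have h2 := hz z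
    have h5 := i'.2
    show 0 = _
    have h3 : c0 m k N (Sum.inl z) = k + z.val / m := rfl
    rw [h3] at hle ⊢
    clear h3
    generalize z.val / m = q at *
    cases b'
    · have h4 : c0 m k N (Sum.inr ((i', false), s')) = i'.val := rfl
      rw [h4] at hle ⊢
      omega
    · have h4 : c0 m k N (Sum.inr ((i', true), s')) = k * (N + 1) + i'.val := rfl
      rw [h4]
      rw [if_neg (by omega), if_neg (by omega), if_neg (by omega)]
  · have h2 := hz z'
    have h5 := i.2
    show 0 = _
    have h3 : c0 m k N (Sum.inl z') = k + z'.val / m := rfl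
    rw [h3] at hle ⊢
    clear h3
    generalize z'.val / m = q at *
    cases b
    · have h4 : c0 m k N (Sum.inr ((i, false), s)) = i.val := rfl
      rw [h4]
      rw [if_neg (by omega), if_neg (by omega), if_neg (by omega)]
    · have h4 : c0 m k N (Sum.inr ((i, true), s)) = k * (N + 1) + i.val := rfl
      rw [h4] at hle ⊢
      omega
  · have h3 := i.2
    have h4 := i'.2
    show MI (AB k N) m id ((i, b), s) ((i', b'), s') = _
    cases b <;> cases b'
    · have e1 : c0 m k N (Sum.inr ((i, false), s)) = i.val := rfl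
      have e2 : c0 m k N (Sum.inr ((i', false), s')) = i'.val := rfl
      have e3 : m * i.val + s.val < m * i'.val + s'.val := hxy
      have e4 : MI (AB k N) m id ((i, false), s) ((i', false), s') = if i' = i ∧ s ≠ s' then 1 else 0 := by
        unfold MI AB
        simp
      rw [e4, e1, e2, if_neg (by omega : ¬ (0 + k ≤ i.val ∧ i'.val < k * (N + 1)))]
      by_cases h5 : i.val = i'.val
      · have h6 : i = i' := Fin.ext h5
        subst h6
        have h7 : s ≠ s' := by
          rintro rfl
          exact lt_irrefl _ e3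
        rw [if_pos ⟨rfl, h7⟩, if_pos (by omega)]
      · rw [if_neg (show ¬ (i' = i ∧ s ≠ s') from fun h => h5 (by rw [h.1])), if_neg (by omega),
          if_neg (by omega)]
    · have e1 : c0 m k N (Sum.inr ((i, false), s)) = i.val := rfl
      have e2 : c0 m k N (Sum.inr ((i', true), s')) = k * (N + 1) + i'.val := rfl
      have e4 : MI (AB k N) m id ((i, false), s) ((i', true), s') = if i = i' then N - 1 else N := by
        unfold MI AB
        simp
      rw [e1, e2, if_neg (by omega : ¬ (0 + k ≤ i.val ∧ k * (N + 1) + i'.val < k * (N + 1))),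
        if_neg (by omega : ¬ (i.val = k * (N + 1) + i'.val ∧ 0 ≤ i.val ∧
          (k * (N + 1) + i'.val < 0 + k ∨ k * (N + 1) ≤ i.val))), if_pos (by omega), e4]
      unfold chM
      rw [if_pos h3, Nat.add_sub_cancel_left]
      refine if_congr ?_ rfl rfl
      rw [Fin.ext_iff]
      exact eq_comm
    · exfalso
      have e1 : c0 m k N (Sum.inr ((i, true), s)) = k * (N + 1) + i.val := rfl
      have e2 : c0 m k N (Sum.inr ((i', false), s')) = i'.val := rfl
      rw [e1, e2] at hle
      omega
    · have e1 : c0 m k N (Sum.inr ((i, true), s)) = k * (N + 1) + i.val := rfl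
      have e2 : c0 m k N (Sum.inr ((i', true), s')) = k * (N + 1) + i'.val := rfl
      have e3 : m * (k * (N + 1) + i.val) + s.val < m * (k * (N + 1) + i'.val) + s'.val := hxy
      have e4 : MI (AB k N) m id ((i, true), s) ((i', true), s') = if i' = i ∧ s ≠ s' then 1 else 0 := by
        unfold MI AB
        simp
      rw [e4, e1, e2, if_neg (by omega : ¬ (0 + k ≤ k * (N + 1) + i.val ∧ k * (N + 1) + i'.val < k * (N + 1)))]
      by_cases h5 : i.val = i'.val
      · have h6 : i = i' := Fin.ext h5
        subst h6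
        have h7 : s ≠ s' := by
          rintro rfl
          exact lt_irrefl _ e3
        rw [if_pos ⟨rfl, h7⟩, if_pos (by omega)]
      · rw [if_neg (show ¬ (i' = i ∧ s ≠ s') from fun h => h5 (by rw [h.1])), if_neg (by omega),
          if_neg (by omega)]

/-- the blow-up of the complement of the power of a cycle -/
theorem ok_blow (hSTEP : S_STEP) (hBAS : S_BAS) (hPWA : S_PWA) (hPWR : S_PWR) (hUNI : S_UNI)
    (hKOK : S_KOK) (hNUM : S_NUM) (p : ℕ) [hp : Fact p.Prime] (hp2 : p ≠ 2) (m k N : ℕ)
    (h : m * (k * N) = p - 1) :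
    RegM (p - 2) (MI (ind (powC (k * (N + 2)) k)ᶜ) m id) ∧
      OK p (ZMod (k * (N + 2)) × Fin m) (MI (ind (powC (k * (N + 2)) k)ᶜ) m id) := by
  classical
  have hp2' := hp.out.two_le
  have hpos : 0 < m * (k * N) := by omega
  have hm : 0 < m := Nat.pos_of_mul_pos_right hpos |> fun h => by
    rcases Nat.eq_zero_or_pos m with h1 | h1
    · rw [h1, zero_mul] at hpos
      exact absurd hpos (lt_irrefl _)
    · exact h1
  have hkN : 0 < k * N := by
    rcases Nat.eq_zero_or_pos (k * N) with h1 | h1
    · rw [h1, mul_zero] at hpos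
      exact absurd hpos (lt_irrefl _)
    · exact h1
  have hk : 0 < k := by
    rcases Nat.eq_zero_or_pos k with h1 | h1
    · rw [h1, zero_mul] at hkN
      exact absurd hkN (lt_irrefl _)
    · exact h1
  have hN : 0 < N := by
    rcases Nat.eq_zero_or_pos N with h1 | h1
    · rw [h1, mul_zero] at hkN
      exact absurd hkN (lt_irrefl _)
    · exact h1
  have hv : k * (N + 2) = k * N + 2 * k := by ring
  have : NeZero (k * (N + 2)) := ⟨by omega⟩
  -- regularity
  have hA := hPWR (k * (N + 2)) k (by omega)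
  have hreg : RegM (p - 2) (MI (ind (powC (k * (N + 2)) k)ᶜ) m id) := by
    refine ⟨inferInstance, ?_, ?_, ?_⟩
    · intro x y
      unfold MI
      rw [hA.symm x.1 y.1]
      congr 1
      refine if_congr ?_ rfl rfl
      exact ⟨fun h => ⟨h.1.symm, h.2.symm⟩, fun h => ⟨h.1.symm, h.2.symm⟩⟩
    · intro x
      unfold MI
      rw [hA.diag, if_neg (fun h => h.2 rfl)]
    · intro x
      have hf : Fintype (ZMod (k * (N + 2))) := inferInstance
      rw [finsum_eq_sum_of_fintype, Fintype.sum_prod_type]
      have h1 : ∀ c : ZMod (k * (N + 2)), ∑ t : Fin m, MI (ind (powC (k * (N + 2)) k)ᶜ) m id x (c, t) =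
          m * ind (powC (k * (N + 2)) k)ᶜ x.1 c + if c = x.1 then m - 1 else 0 := by
        intro c
        unfold MI
        show ∑ t : Fin m, (ind (powC (k * (N + 2)) k)ᶜ x.1 c +
          if (c, t).1 = id x.1 ∧ x.2 ≠ (c, t).2 then 1 else 0) = _
        rw [Finset.sum_add_distrib, Finset.sum_const, Finset.card_univ, Fintype.card_fin, smul_eq_mul]
        congr 1
        by_cases hc : c = x.1
        · rw [if_pos hc]
          have h2 : ∀ t : Fin m, (if (c, t).1 = id x.1 ∧ x.2 ≠ (c, t).2 then 1 else 0) =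
              if x.2 ≠ t then 1 else 0 := by
            intro t
            refine if_congr ?_ rfl rfl
            exact ⟨fun h => h.2, fun h => ⟨hc, h⟩⟩
          rw [Finset.sum_congr rfl fun t _ => h2 t, Finset.sum_boole]
          have h3 : (univ.filter fun t : Fin m => x.2 ≠ t) = univ.erase x.2 := by
            ext t
            rw [mem_filter, mem_erase]
            exact ⟨fun h => ⟨h.2.symm, mem_univ _⟩, fun h => ⟨mem_univ _, h.1.symm⟩⟩
          rw [h3, Finset.card_erase_of_mem (mem_univ _), Finset.card_univ, Fintype.card_fin]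
          rfl
        · rw [if_neg hc]
          exact Finset.sum_eq_zero fun t _ => if_neg fun h => hc h.1
      rw [Finset.sum_congr rfl fun c _ => h1 c, Finset.sum_add_distrib, ← Finset.mul_sum,
        Finset.sum_ite_eq' univ x.1, if_pos (mem_univ _)]
      have h4 := hA.reg x.1
      rw [finsum_eq_sum_of_fintype] at h4
      rw [h4]
      have h5 : k * (N + 2) - 1 - 2 * k = k * N - 1 := by omega
      rw [h5, Nat.mul_sub, h, mul_one]
      have h6 : m ≤ p - 1 := by
        rw [← h]
        exact Nat.le_mul_of_pos_right m hkN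
      omega
  refine ⟨hreg, ?_⟩
  -- the multigraph of the chains and the complete graph
  have hlt : m * (k * N) < p := by omega
  have hcl := claim_zero hSTEP p m k N hm hk hN hlt
  obtain ⟨hB1, hB2⟩ := hBAS p hp2 m k N h
  have hK1 : RegM (p - 2) (ind (⊤ : SimpleGraph (Fin (m * (k * N))))) :=
    regM_top p hp2' (by rw [Nat.card_eq_fintype_card, Fintype.card_fin, h])
  have hK2 : OK p (Fin (m * (k * N))) (ind (⊤ : SimpleGraph (Fin (m * (k * N))))) :=
    hKOK p hp2 _ (by rw [Nat.card_eq_fintype_card, Fintype.card_fin, h])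
  have hU1 := regM_sum _ _ hK1 hB1
  have hU2 := hUNI p hp2 _ _ _ _ hK1 hB1 hK2 hB2
  set μ₀ : Fin (m * (k * (N + 2))) → Fin (m * (k * (N + 2))) → ℕ := fun i j =>
    sumM (ind (⊤ : SimpleGraph (Fin (m * (k * N))))) (MI (AB k N) m id) ((e0 hm).symm i)
      ((e0 hm).symm j) with hμ₀
  have hμ₀1 : RegM (p - 2) μ₀ := regM_iso (e0 hm) _ hU1
  have hμ₀2 : OK p _ μ₀ := ok_iso (e0 hm) _ hU2
  set μ : Fin (m * (k * (N + 2))) → Fin (m * (k * (N + 2))) → ℕ := fun i j =>
    MI (ind (powC (k * (N + 2)) k)ᶜ) m id ((eN m (k * (N + 2))).symm i)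
      ((eN m (k * (N + 2))).symm j) with hμ
  have hμ1 : RegM (p - 2) μ := regM_iso (eN m (k * (N + 2))) _ hreg
  have hG0 : GP (ZMod p) μ₀ = GP (ZMod p) (fun i j : Fin (m * (k * (N + 2))) => Qst m k N 0 i j) := by
    refine GP_congr ?_
    intro i j hij
    have h1 : f0 m k N ((e0 hm).symm i) = i.val := by
      rw [← e0_val hm, Equiv.apply_symm_apply]
    have h2 : f0 m k N ((e0 hm).symm j) = j.val := by
      rw [← e0_val hm, Equiv.apply_symm_apply]
    have h3 := sum_qst hm hk hN ((e0 hm).symm i) ((e0 hm).symm j) (by rw [h1, h2]; exact hij)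
    rw [h1, h2] at h3
    exact h3
  have hG1 : GP (ZMod p) μ = GP (ZMod p) (fun i j : Fin (m * (k * (N + 2))) => Pst m k N 0 i j) := by
    refine GP_congr ?_
    intro i j hij
    have h3 := mi_pst hPWA hm hk hN ((eN m (k * (N + 2))).symm i) ((eN m (k * (N + 2))).symm j) (by
      rw [Equiv.apply_symm_apply, Equiv.apply_symm_apply]
      exact hij)
    rw [Equiv.apply_symm_apply, Equiv.apply_symm_apply] at h3
    exact h3
  unfold Claim at hcl
  rw [← hG0, ← hG1] at hcl
  have hne : Even (m * (k * (N + 2))) := RelS.even_card p hp2 _ μ hμ1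
  obtain ⟨Λ, hΛ⟩ := fun_main p hp2 _ hne
  have hcc : cc (ZMod p) (p - 2) (mτ (edM μ)) (mη (edM μ)) ≠ 0 := by
    intro h0
    have h1 := ((hΛ μ hμ1).1).2 h0
    have h2 : WZ (ZMod p) {i : Fin (m * (k * (N + 2))) | m * (0 + k) ≤ i.val ∧
        i.val < m * (k * (N + 1))} (GP (ZMod p) μ) ≤ LinearMap.ker Λ := by
      unfold WZ
      rw [Submodule.span_le]
      rintro _ ⟨σ, _, rfl⟩
      show Λ _ = 0
      rw [(hΛ μ hμ1).2 σ, h1, mul_zero]
    have h3 : Λ (GP (ZMod p) μ₀) = 0 := h2 hcl
    exact hμ₀2 _ (Equiv.refl _) (((hΛ μ₀ hμ₀1).1).1 h3)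
  intro n e'
  have hn : n = m * (k * (N + 2)) := by
    have h1 := Fintype.card_congr (e'.symm.trans (eN m (k * (N + 2))))
    rw [Fintype.card_fin, Fintype.card_fin] at h1
    exact h1
  subst hn
  exact hNUM p (p - 2) _ (MI (ind (powC (k * (N + 2)) k)ᶜ) m id) hreg.symm _
    (eN m (k * (N + 2))) e' hcc

end Pool.Agent.N343.LT.Fin1
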