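import Pool.Agent.N343.LT.Asm
import Pool.Agent.N591.LT.LAP
import Pool.Agent.N564.LT.RES
import Pool.Agent.N46.LT.CAU
import Pool.Agent.N46.LT.KEY
import Pool.Agent.N769.LT.EXP
import Pool.Agent.N769.LT.MAT
import Pool.Agent.N521.LT.ONE
import Pool.Agent.N195.LT.HEX
import Pool.Agent.N195.LT.BAS
import Pool.Agent.N478.LT.Step
import Pool.Agent.N592.LT.CP1
import Pool.Agent.N495.LT.CPI
import Pool.Agent.N935.LT.TRI
import Pool.Agent.N849.LT.RNG
import Pool.Agent.N901.LT.BLW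
import Pool.Agent.N768.LT.AAN
import Pool.Agent.N803.LT.HLD
import Pool.Agent.Y431.ZF.Iso
import Pool.Agent.Y212.ZF.Num
import Pool.Agent.Y812.ZF.Uni
import Pool.Agent.Y427.ZG.Kok
import Pool.Agent.Y306.ZP.Detc
import Pool.Agent.Y65.ZP.Bip
import Pool.Agent.Y845.ZP.Pwa
import Pool.Agent.Y15.ZP.Pwr

set_option autoImplicit false
set_option linter.all false

namespace Pool.Agent.N343.LT.Final

open Finset Pool.Agent.Helper929 Pool.Agent.H604R2.LEC Pool.Agent.Y819.ZF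
  Pool.Agent.N343.LT Pool.Agent.N343.LT.Defs

theorem hNUM : S_NUM := Pool.Agent.Y212.ZF.num Pool.Agent.Y431.ZF.main
theorem hGME : S_GME := Pool.Agent.Y212.ZF.gme Pool.Agent.Y431.ZF.main
theorem hUNI : S_UNI := Pool.Agent.Y812.ZF.Uni.main hNUM Pool.Agent.Y51.ZG.main Pool.Agent.Y726.ZF.blk
  Pool.Agent.Y431.ZF.main
theorem hKOK : S_KOK := Pool.Agent.Y427.ZG.main Pool.Agent.Y726.ZF.kz Pool.Agent.Y51.ZG.main
  Pool.Agent.Y431.ZF.main hNUM
theorem hBIP : S_BIP := Pool.Agent.Y65.ZP.main Pool.Agent.Y429.ZF.SUB.main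
theorem hKEY : S_KEY := Pool.Agent.N46.LT.KEY.main Pool.Agent.N591.LT.LAP.main
  Pool.Agent.N564.LT.RES.main
theorem hSTEP : S_STEP := Pool.Agent.N478.LT.main hKEY
theorem hCP1 : S_CP1 := Pool.Agent.N592.LT.CP1.main Pool.Agent.N46.LT.CAU.main fun_main hNUM
theorem hCPI : S_CPI := Pool.Agent.N495.LT.CPI.main hCP1
theorem hBAS : S_BAS := Pool.Agent.N195.LT.BAS.main hCPI hBIP Pool.Agent.Y306.ZP.main hNUM
theorem hTRI : S_TRI := Pool.Agent.N935.LT.TRI.main Pool.Agent.N769.LT.EXP.main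
  Pool.Agent.N521.LT.ONE.main Pool.Agent.N769.LT.MAT.main Pool.Agent.Y438.ZF.alt
  Pool.Agent.Y431.ZF.main hNUM hGME
theorem hHLD : S_HLD := Pool.Agent.N803.LT.HLD.main All.sGC

/-- complete tripartite graphs -/
theorem tripartite (n : ℕ) (hn : Even n) (hn0 : 0 < n) (hp : (2 * n + 1).Prime) :
    Holds (2 * n + 1) (2 * n) (EqualTripartite n) ∧
      ∀ a : ℕ, 1 ≤ a → a ≤ n → ListEdgeConjectureFor (Tripartite a n n) := by
  have h : Holds (2 * n + 1) (2 * n) (K3 n) :=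
    Asm.tri hSTEP hBAS hCPI Pool.Agent.Y845.ZP.main Pool.Agent.Y15.ZP.main hUNI hKOK hNUM hHLD
      Pool.Agent.N195.LT.HEX.main hTRI n hn hn0 hp
  exact ⟨h, fun a h1 h2 => Pool.Agent.N768.LT.AAN.main n a h1 h2 h.2.1⟩

/-- complete multipartite graphs minus a perfect matching -/
theorem multipartite (p : ℕ) (hp : p.Prime) (r m : ℕ) (hr : 2 ≤ r) (h : (r - 1) * (2 * m) = p - 1) :
    Holds p (p - 2) (MultipartiteMinusMatching r m) := by
  have : Fact p.Prime := ⟨hp⟩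
  have hp2 : p ≠ 2 := by
    rintro rfl
    have h1 : (r - 1) * (2 * m) = 2 * ((r - 1) * m) := by ring
    omega
  exact Asm.ring_ok hSTEP hBAS hCPI Pool.Agent.Y845.ZP.main Pool.Agent.Y15.ZP.main hUNI hKOK hNUM
    Pool.Agent.N901.LT.BLW.main Pool.Agent.N849.LT.RNG.main hGME hHLD p hp2 r m hr h

/-- complements of blow-ups of powers of cycles -/
theorem blowUps (p : ℕ) (hp : p.Prime) (hp2 : p ≠ 2) (m k N : ℕ) (h : m * (k * N) = p - 1)
    (φ : ZMod (k * (N + 2)) → ZMod (k * (N + 2))) (hφ : ∀ c, φ (φ c) = c) (hn : ∀ c, Near k c (φ c)) :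
    Holds p (p - 2) (BlowUp (k * (N + 2)) k m φ) := by
  have : Fact p.Prime := ⟨hp⟩
  obtain ⟨h1, h2, h3⟩ := Asm.blow_ok hSTEP hBAS hCPI Pool.Agent.Y845.ZP.main Pool.Agent.Y15.ZP.main
    hUNI hKOK hNUM Pool.Agent.N901.LT.BLW.main p hp2 m k N h _ rfl φ hφ hn
  exact Asm.holds_of_ok hGME hHLD p hp2 _ h2 h3

end Pool.Agent.N343.LT.Final
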